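import Pool.Agent.helper64.OT.SpecI
import Pool.Agent.helper90.SPI.BDS

/-!
# Project OT, row BDC: few separated bad points
-/

set_option autoImplicit false

namespace Pool.Agent.OL

open Finset Pool.Agent.OT Pool.Agent.SPI Pool.Agent.helper85.PG
open scoped Pointwise

/-- OL, row BDC -/
theorem BDC (hSHG : Pool.Agent.SPI.SHG_stmt) (hPRM : Pool.Agent.SPI.PRM_stmt)
    (hNUM : Pool.Agent.SPI.NUM_stmt) (hHOL : Pool.Agent.SPI.HOL_stmt) (hDIV : Pool.Agent.SPI.DIV_stmt)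
    (hNUS : Pool.Agent.SPI.NUS_stmt) : BDC_stmt := by
  intro κ hκ hκ4
  obtain ⟨C, hC, hdiv⟩ := hDIV (κ / 32) (by positivity)
  obtain ⟨γ, hγ⟩ : ∃ γ : ℝ, γ = κ / 16 := ⟨_, rfl⟩
  have hγ0 : 0 < γ := by rw [hγ]; positivity
  obtain ⟨k, hk⟩ : ∃ k : ℕ, 2 / γ ≤ (k : ℝ) := exists_nat_ge _
  have hkR : (0 : ℝ) < k := lt_of_lt_of_le (by positivity) hk
  have hk0 : 0 < k := by exact_mod_cast hkR
  have hk1 : (1 : ℝ) ≤ k := by exact_mod_cast hk0
  have hkγ : 1 ≤ (k : ℝ) * (γ / 2) := by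
    rw [div_le_iff₀ hγ0] at hk
    linarith
  obtain ⟨δ, hδ⟩ : ∃ δ : ℝ, δ = κ / (64 * k) := ⟨_, rfl⟩
  have hδ0 : 0 < δ := by rw [hδ]; positivity
  have hδk : 4 * k * δ = κ / 16 := by rw [hδ]; field_simp; norm_num
  have hδγ : 4 * δ ≤ γ := by
    have : 4 * δ ≤ 4 * k * δ := by nlinarith
    rw [hγ]; linarith
  set Ck : ℝ := (3 : ℝ) ^ (2 * k) * ((k : ℝ) ^ (2 * k) + 4 * k) with hCk
  have hCk0 : 0 < Ck := by positivity
  obtain ⟨P2, hP2⟩ := BDS_large γ 4 hγ0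
  obtain ⟨P3, hP3⟩ := BDS_large (3 / 4) 24 (by norm_num)
  obtain ⟨P5, hP5⟩ := BDS_large (1 / 2) (2 ^ k) (by norm_num)
  obtain ⟨P6, hP6⟩ := BDS_large (κ / 16) (Ck * (10 ^ 4 + 2 * 10 ^ 5 * C)) (by positivity)
  obtain ⟨P7, hP7⟩ := BDS_large δ 32 hδ0
  refine ⟨γ, δ, P2 + P3 + P5 + P6 + P7, hγ0, by rw [hγ]; linarith, hδ0, ?_⟩
  intro p hpp hp χ h M hχ hh hM
  have f2 := hP2 p (by omega)
  have f3 := hP3 p (by omega)
  have f5 := hP5 p (by omega)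
  have f6 := hP6 p (by omega)
  have f7 := hP7 p (by omega)
  have hpp' : p.Prime := hpp.out
  set P : ℝ := (p : ℝ) with hP
  have hP1 : 1 < P := by
    have := hpp'.one_lt
    rw [hP]
    exact_mod_cast this
  have hP0 : 0 < P := by linarith
  have one_le : ∀ a : ℝ, 0 ≤ a → 1 ≤ P ^ a := fun a ha => Real.one_le_rpow hP1.le ha
  have pos : ∀ a : ℝ, 0 < P ^ a := fun a => Real.rpow_pos_of_pos hP0 a
  have padd : ∀ a b : ℝ, P ^ (a + b) = P ^ a * P ^ b := fun a b => Real.rpow_add hP0 a b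
  have pmono : ∀ a b : ℝ, a ≤ b → P ^ a ≤ P ^ b := fun a b hab => Real.rpow_le_rpow_of_exponent_le hP1.le hab
  have hκγ : 0 ≤ κ - γ := by rw [hγ]; linarith
  -- the floors
  have h1 : (h : ℝ) ≤ P ^ κ := by rw [hh]; exact Nat.floor_le (pos _).le
  have h2 : P ^ κ / 2 ≤ h := by rw [hh]; exact BDS_floor _ (one_le _ hκ.le)
  have m1 : (M : ℝ) ≤ P ^ (κ - γ) := by rw [hM]; exact Nat.floor_le (pos _).le
  have m2 : P ^ (κ - γ) / 2 ≤ M := by rw [hM]; exact BDS_floor _ (one_le _ hκγ)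
  obtain ⟨V, hV⟩ : ∃ V : ℕ, V = ⌊P ^ (γ / 2)⌋₊ := ⟨_, rfl⟩
  have v1 : (V : ℝ) ≤ P ^ (γ / 2) := by rw [hV]; exact Nat.floor_le (pos _).le
  have v2 : P ^ (γ / 2) / 2 ≤ V := by rw [hV]; exact BDS_floor _ (one_le _ (by positivity))
  have hM0R : (0 : ℝ) < M := lt_of_lt_of_le (by have := pos (κ - γ); positivity) m2
  have hM0 : 0 < M := by exact_mod_cast hM0R
  have hV0R : (0 : ℝ) < V := lt_of_lt_of_le (by have := pos (γ / 2); positivity) v2
  have hV0 : 0 < V := by exact_mod_cast hV0R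
  have hh0R : (0 : ℝ) < h := lt_of_lt_of_le (by have := pos κ; positivity) h2
  have hh0 : 0 < h := by exact_mod_cast hh0R
  have e1 : P ^ κ = P ^ (κ - γ) * P ^ γ := by rw [← padd]; congr 1; ring
  have hMh : 2 * M ≤ h := by
    have : 2 * (M : ℝ) ≤ h := by
      have := pos (κ - γ)
      nlinarith
    exact_mod_cast this
  have hhp : 24 * h ≤ p := by
    have : 24 * (h : ℝ) ≤ p := by
      have e2 : P = P ^ (1 / 4 : ℝ) * P ^ (3 / 4 : ℝ) := by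
        rw [← padd]; norm_num
      have e3 : P ^ κ ≤ P ^ (1 / 4 : ℝ) := pmono _ _ hκ4
      have := pos (1 / 4 : ℝ)
      calc 24 * (h : ℝ) ≤ 24 * P ^ (1 / 4 : ℝ) := by linarith
        _ ≤ P ^ (1 / 4 : ℝ) * P ^ (3 / 4 : ℝ) := by nlinarith
        _ = P := e2.symm
    exact_mod_cast this
  have hp0 : 0 < p := hpp'.pos
  have hhp' : h < p := by omega
  refine ⟨hM0, hMh, hhp, ?_⟩
  intro S hSD hS
  by_contra hcon
  rw [not_le] at hcon
  have s1 : P ^ (1 / 2 + κ / 4) < S.card * (h : ℝ) ^ 2 := hcon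
  have hS0R : (0 : ℝ) < S.card := by
    have := (pos (1 / 2 + κ / 4)).trans s1
    by_contra hneg
    have h3 : (S.card : ℝ) = 0 := le_antisymm (not_lt.mp hneg) (Nat.cast_nonneg _)
    rw [h3] at this
    simp at this
  have hS0 : 0 < S.card := by exact_mod_cast hS0R
  -- the divisor bound
  obtain ⟨T, hT⟩ : ∃ T : ℕ, T = ⌊C * P ^ (κ / 32)⌋₊ := ⟨_, rfl⟩
  have t1 : (T : ℝ) ≤ C * P ^ (κ / 32) := by
    rw [hT]
    exact Nat.floor_le (by have := pos (κ / 32); positivity)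
  have hTd : ∀ n : ℕ, 1 ≤ n → n ≤ p → n.divisors.card ≤ T := by
    intro n hn hnp
    rw [hT]
    apply Nat.le_floor
    refine (hdiv n hn).trans ?_
    apply mul_le_mul_of_nonneg_left _ hC.le
    apply Real.rpow_le_rpow (Nat.cast_nonneg _) _ (by positivity)
    rw [hP]
    exact_mod_cast hnp
  -- V ^ k ≥ sqrt p
  have hsq : Real.sqrt P = P ^ (1 / 2 : ℝ) := Real.sqrt_eq_rpow P
  have hVk : Real.sqrt p ≤ (V : ℝ) ^ k := by
    have g1 : (P ^ (γ / 2) / 2) ^ k ≤ (V : ℝ) ^ k := pow_le_pow_left₀ (by have := pos (γ / 2); positivity) v2 k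
    refine le_trans ?_ g1
    rw [div_pow, le_div_iff₀ (by positivity), ← Real.rpow_natCast (P ^ (γ / 2)) k, ← Real.rpow_mul hP0.le]
    have g2 : P ≤ P ^ (γ / 2 * k) := by
      calc P = P ^ (1 : ℝ) := (Real.rpow_one P).symm
        _ ≤ _ := pmono _ _ (by linarith)
    refine le_trans ?_ g2
    have g3 : P = P ^ (1 / 2 : ℝ) * P ^ (1 / 2 : ℝ) := by rw [← padd]; norm_num
    calc Real.sqrt p * 2 ^ k = P ^ (1 / 2 : ℝ) * 2 ^ k := by rw [← hsq]
      _ ≤ P ^ (1 / 2 : ℝ) * P ^ (1 / 2 : ℝ) := mul_le_mul_of_nonneg_left f5.le (pos _).le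
      _ = P := g3.symm
  have hVp : V < p := by
    have : (V : ℝ) < P := by
      refine lt_of_le_of_lt v1 ?_
      calc P ^ (γ / 2) < P ^ (1 : ℝ) := Real.rpow_lt_rpow_of_exponent_lt hP1 (by rw [hγ]; linarith)
        _ = P := Real.rpow_one P
    rw [hP] at this
    exact_mod_cast this
  -- theta
  set θ : ℝ := P ^ (-(2 * δ)) with hθ
  have hθ0 : 0 < θ := pos _
  have hθk : θ ^ (2 * k) = P ^ (-(κ / 16)) := by
    rw [hθ, ← Real.rpow_natCast, ← Real.rpow_mul hP0.le]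
    congr 1
    push_cast
    linarith
  set N : ℝ := (S.card : ℝ) * h * M with hN
  have hN0 : 0 < N := by positivity
  have n1 : P ^ (1 / 2 + κ / 4 - γ) ≤ 2 * N := by
    have g1 : (h : ℝ) * P ^ (-γ) ≤ 2 * M := by
      calc (h : ℝ) * P ^ (-γ) ≤ P ^ κ * P ^ (-γ) := mul_le_mul_of_nonneg_right h1 (pos _).le
        _ = P ^ (κ - γ) := by rw [← padd]; rfl
        _ ≤ 2 * M := by linarith
    calc P ^ (1 / 2 + κ / 4 - γ) = P ^ (1 / 2 + κ / 4) * P ^ (-γ) := by rw [← padd]; rfl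
      _ ≤ (S.card * (h : ℝ) ^ 2) * P ^ (-γ) := mul_le_mul_of_nonneg_right s1.le (pos _).le
      _ = S.card * h * (h * P ^ (-γ)) := by ring
      _ ≤ S.card * h * (2 * M) := mul_le_mul_of_nonneg_left g1 (by positivity)
      _ = 2 * N := by rw [hN]; ring
  have key : Ck * Real.sqrt p * (10 ^ 4 / p + 10 ^ 5 * T / ((S.card : ℝ) * h * M)) ≤ θ ^ (2 * k) := by
    rw [hθk]
    exact BDS_num P κ γ C Ck T N hP1 hκ hκ4 hγ hC hCk0 hN0 t1 n1 f6
  -- the sums for the shifts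
  have hz : ∀ z ∈ (Icc (-((h / M : ℕ) : ℤ)) ((h / M : ℕ) : ℤ)).erase 0,
      ∑ r : ZMod p, (nu S h M r : ℝ) * cr χ V r ((1 : ZMod p) * (z : ZMod p)) ≤ N * V * θ := by
    intro z hz
    rw [Finset.mem_erase, Finset.mem_Icc] at hz
    have hu : (1 : ZMod p) * (z : ZMod p) ≠ 0 := by
      apply mul_ne_zero one_ne_zero
      apply BDS_ne p z (h / M) _ hz.2.1 hz.2.2 hz.1
      exact lt_of_le_of_lt (Nat.div_le_self h M) hhp'
    exact BDS_sum hPRM hNUM hHOL hNUS p χ hχ S h M V T k ((1 : ZMod p) * (z : ZMod p)) θ hM0 hMh hhp hV0 hVp hk0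
      hu hTd hS hS0 hVk hθ0.le key
  have hcard := BDS_card (h / M)
  have hsum : ∑ z ∈ (Icc (-((h / M : ℕ) : ℤ)) ((h / M : ℕ) : ℤ)).erase 0,
      ∑ r : ZMod p, (nu S h M r : ℝ) * cr χ V r ((1 : ZMod p) * (z : ZMod p)) ≤ 2 * ((h : ℝ) / M) * (N * V * θ) := by
    refine (Finset.sum_le_card_nsmul _ _ _ hz).trans ?_
    rw [nsmul_eq_mul, hcard]
    apply mul_le_mul_of_nonneg_right _ (by positivity)
    exact mul_le_mul_of_nonneg_left Nat.cast_div_le (by norm_num)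
  have hshg := hSHG p χ 1 h M V S hM0 hMh hhp' hV0
  have hlow : (S.card : ℝ) * (P ^ (-δ) * (h : ℝ) ^ 2) ≤ ∑ s ∈ S, RR χ 1 h M s := by
    have : S.card • (P ^ (-δ) * (h : ℝ) ^ 2) ≤ ∑ s ∈ S, RR χ 1 h M s := by
      apply Finset.card_nsmul_le_sum
      intro s hs
      exact (hSD s hs).le
    rwa [nsmul_eq_mul] at this
  have hMV : (M : ℝ) * V ≤ 2 * h * θ := by
    calc (M : ℝ) * V ≤ P ^ (κ - γ) * P ^ (γ / 2) := mul_le_mul m1 v1 hV0R.le (pos _).le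
      _ = P ^ κ * P ^ (-(γ / 2)) := by rw [← padd, ← padd]; congr 1; ring
      _ ≤ (2 * h) * P ^ (-(γ / 2)) := mul_le_mul_of_nonneg_right (by linarith) (pos _).le
      _ ≤ (2 * h) * θ := mul_le_mul_of_nonneg_left (pmono _ _ (by linarith)) (by positivity)
  have hup : ∑ s ∈ S, RR χ 1 h M s ≤ 32 * (S.card * (h : ℝ) ^ 2 * θ) := by
    refine hshg.trans ?_
    have g1 : 2 / (V : ℝ) * ∑ z ∈ (Icc (-((h / M : ℕ) : ℤ)) ((h / M : ℕ) : ℤ)).erase 0,
        ∑ r : ZMod p, (nu S h M r : ℝ) * cr χ V r ((1 : ZMod p) * (z : ZMod p)) ≤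
        4 * (S.card * (h : ℝ) ^ 2 * θ) := by
      calc _ ≤ 2 / (V : ℝ) * (2 * ((h : ℝ) / M) * (N * V * θ)) :=
            mul_le_mul_of_nonneg_left hsum (by positivity)
        _ = 4 * (S.card * (h : ℝ) ^ 2 * θ) := by
            rw [hN]
            field_simp
            ring
    have g2 : 14 * (S.card : ℝ) * h * M * V ≤ 28 * (S.card * (h : ℝ) ^ 2 * θ) := by
      calc 14 * (S.card : ℝ) * h * M * V = 14 * (S.card : ℝ) * h * (M * V) := by ring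
        _ ≤ 14 * (S.card : ℝ) * h * (2 * h * θ) := mul_le_mul_of_nonneg_left hMV (by positivity)
        _ = _ := by ring
    linarith
  have hfin : (S.card : ℝ) * (h : ℝ) ^ 2 * P ^ (-δ) ≤ (S.card : ℝ) * (h : ℝ) ^ 2 * (32 * θ) := by
    calc (S.card : ℝ) * (h : ℝ) ^ 2 * P ^ (-δ) = (S.card : ℝ) * (P ^ (-δ) * (h : ℝ) ^ 2) := by ring
      _ ≤ 32 * (S.card * (h : ℝ) ^ 2 * θ) := hlow.trans hup
      _ = _ := by ring
  have hfin2 : P ^ (-δ) ≤ 32 * θ := le_of_mul_le_mul_left hfin (by positivity)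
  have e5 : P ^ (-δ) = P ^ δ * θ := by rw [hθ, ← padd]; congr 1; ring
  rw [e5] at hfin2
  have := le_of_mul_le_mul_right hfin2 hθ0
  linarith

end Pool.Agent.OL
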