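import Pool.Agent.helper64.OT.SpecW

/-!
# Project OT, row RRC: `g ↦ χ(Res(f, g))` is completely multiplicative
-/

set_option autoImplicit false

namespace Pool.Agent.OT

open Finset Polynomial Pool.Agent.helper82.Weil Pool.Agent.helper82.KL

theorem RRC (_hRRE : RRE_stmt) : RRC_stmt := by
  intro p _ χ f hf
  constructor
  · unfold LR
    rw [natDegree_one, resultant_one_right]
    simp
  · intro g h hg hh
    unfold LR
    rw [hg.natDegree_mul hh, resultant_mul_right f g h f.natDegree le_rfl, map_mul]

end Pool.Agent.OT
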